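import Pool.Agent.H687R2.Rel

/-!
# Short vectors of a lattice given by congruences
-/

set_option linter.unusedSectionVars false
set_option linter.style.haveILetI false
set_option linter.unusedVariables false

namespace Run7.h700

open Finset Pool.Agent.NPC Pool.Agent.H687R2.LLL

/-! ### The number of short vectors -/

section LI

variable {E : Type*} [NormedAddCommGroup E] [InnerProductSpace ℝ E] [FiniteDimensional ℝ E]
  {b : ℕ → E}

theorem li_of_pos : ∀ {k : ℕ}, Pos b k → LinearIndependent ℝ (fun j : Fin k => b j) := by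
  intro k
  induction k with
  | zero => intro _; exact linearIndependent_empty_type
  | succ k ih =>
    intro h
    rw [linearIndependent_finSucc']
    have e : (Fin.init fun j : Fin (k + 1) => b j) = fun j : Fin k => b j := rfl
    rw [e]
    refine ⟨ih (h.mono (Nat.le_succ k)), ?_⟩
    intro hm
    have h1 := h.g_pos (Nat.lt_succ_self k)
    have e2 : b '' Set.Iio k = Set.range (fun j : Fin k => b j) := by
      ext x
      simp only [Set.mem_image, Set.mem_Iio, Set.mem_range]
      constructor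
      · rintro ⟨j, hj, rfl⟩
        exact ⟨⟨j, hj⟩, rfl⟩
      · rintro ⟨j, rfl⟩
        exact ⟨j, j.2, rfl⟩
    have h2 : b k ∈ W b k := by
      rw [W, e2]
      exact hm
    have h3 : g b k = 0 := P_of_mem h2
    rw [h3] at h1
    simp at h1

end LI

theorem li_shortVecs {N k : ℕ} {A : ℝ} {Z : Submodule ℤ (EuclideanSpace ℝ (Fin N))}
    {B : List (List ℤ)} (h : Inv N k A Z B) (β : ℕ) :
    LinearIndependent ℝ (fun i : Fin (shortVecs B β).length => lv N ((shortVecs B β)[i])) := by
  have h0 := fsts_inv h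
  have h1 := li_of_pos h0.pos
  set I := (List.range (gsr B).length).filter fun j => (List.range (gsr B).length).any fun i =>
    decide (j ≤ i) && decide (tD (gsr B) (i + 1) ≤ β * tD (gsr B) i) with hI
  have hS : shortVecs B β = I.map fun j => ((gsr B).getD j ([], [], 0)).1 := rfl
  have hlen : (shortVecs B β).length = I.length := by rw [hS, List.length_map]
  have hk : (gsr B).length = k := (gsr_facts h).1
  have hIk : ∀ i (hi : i < I.length), I[i] < k := by
    intro i hi
    have h2 : I[i] ∈ I := List.getElem_mem hi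
    have h3 : ∀ x ∈ I, x < k := by
      intro x hx
      rw [hI, List.mem_filter, List.mem_range] at hx
      omega
    exact h3 _ h2
  have hnd : I.Nodup := (List.nodup_range).filter _
  have h2 := h1.comp (fun i : Fin (shortVecs B β).length =>
    (⟨I[(i : ℕ)]'(by have := i.2; omega), hIk _ _⟩ : Fin k)) (by
      intro i j hij
      have h3 : I[(i : ℕ)]'(by have := i.2; omega) = I[(j : ℕ)]'(by have := j.2; omega) := by
        simpa using hij
      have h4 := (List.Nodup.getElem_inj_iff hnd).1 h3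
      exact Fin.ext h4)
  have e : (fun i : Fin (shortVecs B β).length => lv N ((shortVecs B β)[i])) =
      ((fun j : Fin k => sq N (fsts (gsr B)) j) ∘
        fun i : Fin (shortVecs B β).length =>
          (⟨I[(i : ℕ)]'(by have := i.2; omega), hIk _ _⟩ : Fin k)) := by
    funext i
    simp only [Function.comp]
    obtain ⟨hj', h3⟩ := sq_fsts h (hIk i (by have := i.2; omega))
    rw [h3]
    congr 1
    simp only [hS, Fin.getElem_fin, List.getElem_map]
    rw [List.getD_eq_getElem _ _ hj']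
  rw [e]
  exact h2

theorem li_lllShort {N T : ℕ} {Z : Submodule ℤ (EuclideanSpace ℝ (Fin N))}
    {B : List (List ℤ)} (h : Inv N B.length (4 ^ T) Z B) (β : ℕ) :
    LinearIndependent ℝ (fun i : Fin (lllShort B T β).length =>
      lv N ((lllShort B T β)[(i : ℕ)])) :=
  li_shortVecs (iter_inv h _) β

/-- The rows of the relation lattice of a system of congruences. -/
def kerX (n r : ℕ) (Φ : List (List ℤ)) (Δ C : ℕ) : List (List ℤ) :=
  (List.range (n + r)).map fun i => (List.range r).map fun j =>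
    if i < n then (C : ℤ) * ((Φ.getD i []).getD j 0 % (Δ : ℤ))
    else if i = n + j then (C : ℤ) * (Δ : ℤ) else 0

/-- The weight. -/
def kerC (n r β : ℕ) : ℕ := 2 ^ (n + r) * (β * (1 + n * r) + 1)

/-- Short solutions of a system of congruences. -/
def kerShort (n r : ℕ) (Φ : List (List ℤ)) (Δ β : ℕ) : List (List ℤ) :=
  (relShort (kerX n r Φ Δ (kerC n r β)) (sz (kerX n r Φ Δ (kerC n r β)))
    (β * (1 + n * r))).map fun u => u.take n

section Spec

variable {n r : ℕ} {Φ : List (List ℤ)} {Δ C β : ℕ}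

theorem length_kerX : (kerX n r Φ Δ C).length = n + r := by simp [kerX]

theorem kerX_len : ∀ u ∈ kerX n r Φ Δ C, u.length = r := by
  intro u hu
  simp only [kerX, List.mem_map] at hu
  obtain ⟨i, _, rfl⟩ := hu
  simp

theorem kerX_nrm : ∀ u ∈ kerX n r Φ Δ C, nrm u < 2 ^ sz (kerX n r Φ Δ C) := fun u hu =>
  (nrm_lt u).trans_le (Nat.pow_le_pow_right (by norm_num) (sz_le_of_mem hu).le)

theorem kerX_T : (kerX n r Φ Δ C).length ≤ sz (kerX n r Φ Δ C) := (length_lt_sz _).le

theorem getD_map_range {γ : Type*} (f : ℕ → γ) (d : γ) {i n : ℕ} (h : i < n) :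
    ((List.range n).map f).getD i d = f i := by
  rw [List.getD_eq_getElem _ _ (by simpa using h)]; simp

theorem form_kerX (c : ℕ → ℤ) {j : ℕ} (hj : j < r) : form (kerX n r Φ Δ C) c j =
    C * (∑ i ∈ range n, c i * ((Φ.getD i []).getD j 0 % (Δ : ℤ)) + c (n + j) * Δ) := by
  rw [form, length_kerX, Finset.sum_range_add, mul_add, Finset.mul_sum]
  congr 1
  · refine Finset.sum_congr rfl fun i hi => ?_
    have hi' := mem_range.1 hi
    rw [kerX, getD_map_range _ _ (by omega), getD_map_range _ _ hj, if_pos hi']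
    ring
  · rw [Finset.sum_eq_single j]
    · rw [kerX, getD_map_range _ _ (by omega), getD_map_range _ _ hj,
        if_neg (by omega), if_pos rfl]
      ring
    · intro b hb hne
      have hb' := mem_range.1 hb
      rw [kerX, getD_map_range _ _ (by omega), getD_map_range _ _ hj,
        if_neg (by omega), if_neg (by omega)]
      ring
    · intro h; exact absurd (mem_range.2 hj) h

theorem kerC_sq (n r β : ℕ) : 4 ^ (n + r) * (β * (1 + n * r)) < kerC n r β ^ 2 := by
  rw [kerC, mul_pow, ← pow_mul, mul_comm (n + r) 2, pow_mul]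
  have : (0 : ℕ) < (2 ^ 2) ^ (n + r) := by positivity
  have h2 : 4 = 2 ^ 2 := by norm_num
  rw [h2]
  refine Nat.mul_lt_mul_of_pos_left ?_ this
  nlinarith

/-- relations of bounded norm are exact -/
theorem rel_exact {u : List ℤ} (hu : u ∈ relShort (kerX n r Φ Δ (kerC n r β))
    (sz (kerX n r Φ Δ (kerC n r β))) (β * (1 + n * r))) :
    u.length = n + r ∧ (∀ j < r, ∑ i ∈ range n, u.getD i 0 * ((Φ.getD i []).getD j 0 % (Δ : ℤ)) +
      u.getD (n + j) 0 * Δ = 0) ∧
      ∑ i ∈ range n, u.getD i 0 ^ 2 ≤ (4 ^ (n + r) * (β * (1 + n * r)) : ℕ) := by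
  obtain ⟨h1, h2⟩ := relShort_short kerX_len kerX_nrm kerX_T _ hu
  rw [length_kerX] at h1 h2
  have hC := kerC_sq n r β
  refine ⟨h1, ?_, ?_⟩
  · intro j hj
    by_contra h3
    have h4 : form (kerX n r Φ Δ (kerC n r β)) (ent u) j ^ 2 ≤
        ∑ j ∈ range r, form (kerX n r Φ Δ (kerC n r β)) (ent u) j ^ 2 :=
      Finset.single_le_sum (f := fun j => form (kerX n r Φ Δ (kerC n r β)) (ent u) j ^ 2)
        (fun _ _ => sq_nonneg _) (mem_range.2 hj)
    have h5 : 0 ≤ ∑ i ∈ range (n + r), ent u i ^ 2 := Finset.sum_nonneg fun _ _ => sq_nonneg _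
    rw [form_kerX _ hj, mul_pow] at h4
    set s := ∑ i ∈ range n, ent u i * ((Φ.getD i []).getD j 0 % (Δ : ℤ)) + ent u (n + j) * Δ
    have h6 : 1 ≤ s ^ 2 := by
      have : s ≠ 0 := h3
      have := Int.one_le_abs this
      rw [← sq_abs]; nlinarith
    have h7 : ((kerC n r β : ℕ) : ℤ) ^ 2 ≤ ((4 ^ (n + r) * (β * (1 + n * r)) : ℕ) : ℤ) := by
      push_cast at h2 ⊢
      nlinarith [sq_nonneg ((kerC n r β : ℕ) : ℤ)]
    have h8 : kerC n r β ^ 2 ≤ 4 ^ (n + r) * (β * (1 + n * r)) := by exact_mod_cast h7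
    omega
  · have h4 : 0 ≤ ∑ j ∈ range r, form (kerX n r Φ Δ (kerC n r β)) (ent u) j ^ 2 :=
      Finset.sum_nonneg fun _ _ => sq_nonneg _
    have h5 : ∑ i ∈ range n, ent u i ^ 2 ≤ ∑ i ∈ range (n + r), ent u i ^ 2 :=
      Finset.sum_le_sum_of_subset_of_nonneg (range_mono (Nat.le_add_right _ _))
        fun _ _ _ => sq_nonneg _
    push_cast at h2 ⊢
    change ∑ i ∈ range n, ent u i ^ 2 ≤ _
    linarith

/-- the elements of `kerShort` -/
theorem kerShort_mem {u : List ℤ} (hu : u ∈ kerShort n r Φ Δ β) :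
    u.length = n ∧ (∀ j < r, (Δ : ℤ) ∣ ∑ i ∈ range n, u.getD i 0 * (Φ.getD i []).getD j 0) ∧
      ∑ i ∈ range n, u.getD i 0 ^ 2 ≤ (4 ^ (n + r) * (β * (1 + n * r)) : ℕ) := by
  rw [kerShort, List.mem_map] at hu
  obtain ⟨v, hv, rfl⟩ := hu
  obtain ⟨h1, h2, h3⟩ := rel_exact hv
  have h4 : ∀ i < n, (v.take n).getD i 0 = v.getD i 0 := by
    intro i hi
    rw [List.getD_eq_getElem _ _ (by simp [h1, hi]), List.getElem_take,
      List.getD_eq_getElem _ _ (by omega)]
  refine ⟨by simp [h1], ?_, ?_⟩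
  · intro j hj
    have h5 : ∑ i ∈ range n, (v.take n).getD i 0 * (Φ.getD i []).getD j 0 =
        ∑ i ∈ range n, v.getD i 0 * (Φ.getD i []).getD j 0 :=
      Finset.sum_congr rfl fun i hi => by rw [h4 i (mem_range.1 hi)]
    rw [h5]
    have h6 : ∑ i ∈ range n, v.getD i 0 * (Φ.getD i []).getD j 0 =
        Δ * (∑ i ∈ range n, v.getD i 0 * ((Φ.getD i []).getD j 0 / Δ) - v.getD (n + j) 0) := by
      have h7 := h2 j hj
      have h8 : ∑ i ∈ range n, v.getD i 0 * (Φ.getD i []).getD j 0 =
          ∑ i ∈ range n, v.getD i 0 * ((Φ.getD i []).getD j 0 % (Δ : ℤ)) +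
          Δ * ∑ i ∈ range n, v.getD i 0 * ((Φ.getD i []).getD j 0 / Δ) := by
        rw [Finset.mul_sum, ← Finset.sum_add_distrib]
        refine Finset.sum_congr rfl fun i _ => ?_
        conv_lhs => rw [← Int.emod_add_mul_ediv ((Φ.getD i []).getD j 0) Δ]
        ring
      rw [h8]
      linarith
    rw [h6]
    exact Dvd.intro _ rfl
  · refine le_trans (le_of_eq ?_) h3
    exact Finset.sum_congr rfl fun i hi => by rw [h4 i (mem_range.1 hi)]

/-- `kerShort` generates all short solutions -/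
theorem kerShort_span (hΔ : 0 < Δ) (c : ℕ → ℤ)
    (hc : ∀ j < r, (Δ : ℤ) ∣ ∑ i ∈ range n, c i * (Φ.getD i []).getD j 0)
    (hβ : ∑ i ∈ range n, c i ^ 2 ≤ β) :
    (fun i : Fin n => c i) ∈ Submodule.span ℤ
      {y : Fin n → ℤ | ∃ u ∈ kerShort n r Φ Δ β, y = fun i : Fin n => u.getD i 0} := by
  have hΔ' : (0 : ℤ) < Δ := by exact_mod_cast hΔ
  -- the full relation
  set y : ℕ → ℤ := fun j => -((∑ i ∈ range n, c i * ((Φ.getD i []).getD j 0 % (Δ : ℤ))) / Δ) with hy
  set d : ℕ → ℤ := fun i => if i < n then c i else y (i - n) with hd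
  have h1 : ∀ j < r, ∑ i ∈ range n, d i * ((Φ.getD i []).getD j 0 % (Δ : ℤ)) + d (n + j) * Δ = 0 := by
    intro j hj
    have h2 : ∑ i ∈ range n, d i * ((Φ.getD i []).getD j 0 % (Δ : ℤ)) =
        ∑ i ∈ range n, c i * ((Φ.getD i []).getD j 0 % (Δ : ℤ)) :=
      Finset.sum_congr rfl fun i hi => by rw [hd]; simp only [if_pos (mem_range.1 hi)]
    have h3 : d (n + j) = y j := by
      rw [hd]; simp
    have h4 : (Δ : ℤ) ∣ ∑ i ∈ range n, c i * ((Φ.getD i []).getD j 0 % (Δ : ℤ)) := by
      have h5 : ∑ i ∈ range n, c i * ((Φ.getD i []).getD j 0 % (Δ : ℤ)) =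
          ∑ i ∈ range n, c i * (Φ.getD i []).getD j 0 -
          Δ * ∑ i ∈ range n, c i * ((Φ.getD i []).getD j 0 / Δ) := by
        rw [Finset.mul_sum, ← Finset.sum_sub_distrib]
        refine Finset.sum_congr rfl fun i _ => ?_
        have := Int.emod_add_mul_ediv ((Φ.getD i []).getD j 0) Δ
        conv_rhs => rw [← this]
        ring_nf
        rw [this]
        ring_nf
      rw [h5]
      exact dvd_sub (hc j hj) (Dvd.intro _ rfl)
    rw [h2, h3, hy]
    simp only
    rw [neg_mul, Int.ediv_mul_cancel h4]; ring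
  have h2 : ∀ j < r, form (kerX n r Φ Δ (kerC n r β)) d j = 0 := by
    intro j hj
    rw [form_kerX _ hj, h1 j hj, mul_zero]
  have h3 : ∀ j, y j ^ 2 ≤ n * β := by
    intro j
    have h4 : |∑ i ∈ range n, c i * ((Φ.getD i []).getD j 0 % (Δ : ℤ))| ≤ Δ * ∑ i ∈ range n, |c i| := by
      refine (Finset.abs_sum_le_sum_abs _ _).trans ?_
      rw [Finset.mul_sum]
      refine Finset.sum_le_sum fun i _ => ?_
      rw [abs_mul, mul_comm]
      refine mul_le_mul_of_nonneg_right ?_ (abs_nonneg _)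
      rw [abs_of_nonneg (Int.emod_nonneg _ hΔ'.ne')]
      exact (Int.emod_lt_of_pos _ hΔ').le
    have h5 : |y j| ≤ ∑ i ∈ range n, |c i| := by
      rw [hy]
      simp only [abs_neg]
      have h6 := abs_le.1 h4
      rw [abs_le]
      have hs : 0 ≤ ∑ i ∈ range n, |c i| := Finset.sum_nonneg fun _ _ => abs_nonneg _
      constructor
      · apply Int.le_ediv_of_mul_le hΔ'
        nlinarith [h6.1]
      · apply Int.ediv_le_of_le_mul hΔ'
        nlinarith [h6.2]
    have h6 : y j ^ 2 ≤ (∑ i ∈ range n, |c i|) ^ 2 := by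
      rw [← sq_abs (y j)]
      exact pow_le_pow_left₀ (abs_nonneg _) h5 2
    have h7 := sq_sum_le_card_mul_sum_sq (s := range n) (f := fun i => |c i|)
    simp only [sq_abs, card_range] at h7
    refine h6.trans (h7.trans ?_)
    exact mul_le_mul_of_nonneg_left hβ (by positivity)
  have h4 : ∑ i ∈ range (kerX n r Φ Δ (kerC n r β)).length, d i ^ 2 +
      ∑ j ∈ range r, form (kerX n r Φ Δ (kerC n r β)) d j ^ 2 ≤ ((β * (1 + n * r) : ℕ) : ℤ) := by
    have h5 : ∑ j ∈ range r, form (kerX n r Φ Δ (kerC n r β)) d j ^ 2 = 0 :=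
      Finset.sum_eq_zero fun j hj => by rw [h2 j (mem_range.1 hj)]; ring
    rw [h5, add_zero, length_kerX, Finset.sum_range_add]
    have h6 : ∑ i ∈ range n, d i ^ 2 ≤ β := by
      refine le_trans (le_of_eq ?_) hβ
      exact Finset.sum_congr rfl fun i hi => by rw [hd]; simp only [if_pos (mem_range.1 hi)]
    have h7 : ∑ j ∈ range r, d (n + j) ^ 2 ≤ r * (n * β) := by
      have : ∀ j ∈ range r, d (n + j) ^ 2 ≤ (n * β : ℤ) := by
        intro j _
        have h3' : d (n + j) = y j := by rw [hd]; simp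
        rw [h3']; exact h3 j
      refine (Finset.sum_le_sum this).trans ?_
      simp
    push_cast
    nlinarith
  have h5 := relShort_span kerX_len kerX_nrm kerX_T _ d h4
  -- transfer
  have key : ∀ z ∈ Submodule.span ℤ {y : Fin (kerX n r Φ Δ (kerC n r β)).length → ℤ |
        ∃ u ∈ relShort (kerX n r Φ Δ (kerC n r β)) (sz (kerX n r Φ Δ (kerC n r β)))
          (β * (1 + n * r)), y = fun i : Fin (kerX n r Φ Δ (kerC n r β)).length => ent u i},
      (fun i : Fin n => z ⟨i, by rw [length_kerX]; omega⟩) ∈ Submodule.span ℤ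
      {y : Fin n → ℤ | ∃ u ∈ kerShort n r Φ Δ β, y = fun i : Fin n => u.getD i 0} := by
    intro z hz
    refine Submodule.span_induction (p := fun z _ =>
      (fun i : Fin n => z ⟨i, by rw [length_kerX]; omega⟩) ∈ Submodule.span ℤ
      {y : Fin n → ℤ | ∃ u ∈ kerShort n r Φ Δ β, y = fun i : Fin n => u.getD i 0}) ?_ ?_ ?_ ?_ hz
    · rintro _ ⟨u, hu, rfl⟩
      refine Submodule.subset_span ⟨u.take n, List.mem_map.2 ⟨u, hu, rfl⟩, ?_⟩
      funext i
      have hlen := (rel_exact hu).1
      have := i.2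
      change u.getD i 0 = (u.take n).getD i 0
      rw [List.getD_eq_getElem (u.take n) _ (by simp [hlen]), List.getElem_take,
        List.getD_eq_getElem _ _ (by omega)]
    · exact Submodule.zero_mem _
    · intro x y _ _ hx hy; exact Submodule.add_mem _ hx hy
    · intro a x _ hx; exact Submodule.smul_mem _ a hx
  have h6 := key _ h5
  convert h6 using 2 with i
  rw [hd]
  simp

theorem length_le_of_li {N n r : ℕ} (S : List (List ℤ)) (hN : N = n + r + r) (ψ : ℕ → ℕ → ℝ)
    {D : ℝ} (hD : D ≠ 0)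
    (hli : LinearIndependent ℝ (fun i : Fin S.length => lv N (S[(i : ℕ)])))
    (hmem : ∀ v ∈ S, (∀ p : Fin N, n + r ≤ (p : ℕ) → lv N v p = 0) ∧
      ∀ j (hj : j < r), D * lv N v ⟨n + j, by omega⟩ =
        -∑ i : Fin n, lv N v ⟨i, by omega⟩ * ψ i j) : S.length ≤ n := by
  have hli2 : LinearIndependent ℝ (fun i : Fin S.length => fun q : Fin n =>
      lv N (S[(i : ℕ)]) ⟨q, by omega⟩) := by
    rw [Fintype.linearIndependent_iff] at hli ⊢
    intro g hg
    refine hli g ?_
    have hg' : ∀ q : Fin n, ∑ i, g i * lv N (S[(i : ℕ)]) ⟨q, by omega⟩ = 0 := by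
      intro q
      have := congrFun hg q
      simpa using this
    ext p
    have e0 : (∑ i, g i • lv N (S[(i : ℕ)])) p = ∑ i, g i * lv N (S[(i : ℕ)]) p := by
      simp
    rw [e0]
    change _ = (0 : ℝ)
    rcases Nat.lt_or_ge (p : ℕ) n with hp | hp
    · exact hg' ⟨p, hp⟩
    · rcases Nat.lt_or_ge (p : ℕ) (n + r) with hp2 | hp2
      · obtain ⟨j, hj, rfl⟩ : ∃ j, ∃ h : n + j < N, p = ⟨n + j, h⟩ :=
          ⟨p - n, by omega, Fin.ext (by simp; omega)⟩
        simp only at hp2
        have e1 : D * ∑ i, g i * lv N (S[(i : ℕ)]) ⟨n + j, hj⟩ = 0 := by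
          rw [Finset.mul_sum]
          have e2 : ∀ i : Fin S.length, D * (g i * lv N (S[(i : ℕ)]) ⟨n + j, hj⟩) =
              ∑ q : Fin n, -(ψ q j) * (g i * lv N (S[(i : ℕ)]) ⟨q, by omega⟩) := by
            intro i
            have e3 := (hmem (S[(i : ℕ)]) (List.getElem_mem _)).2 j (by omega)
            have e4 : D * (g i * lv N (S[(i : ℕ)]) ⟨n + j, hj⟩) =
                g i * (D * lv N (S[(i : ℕ)]) ⟨n + j, by omega⟩) := by
              ring
            rw [e4, e3, mul_neg, Finset.mul_sum, ← Finset.sum_neg_distrib]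
            refine Finset.sum_congr rfl fun q _ => ?_
            ring
          rw [Finset.sum_congr rfl fun i _ => e2 i, Finset.sum_comm]
          refine Finset.sum_eq_zero fun q _ => ?_
          rw [← Finset.mul_sum, hg' q, mul_zero]
        exact (mul_eq_zero.1 e1).resolve_left hD
      · refine Finset.sum_eq_zero fun i _ => ?_
        rw [(hmem (S[(i : ℕ)]) (List.getElem_mem _)).1 p hp2, mul_zero]
  have h := hli2.fintype_card_le_finrank
  simpa using h

theorem coords_aux {X : List (List ℤ)} {C : ℤ} (hXl : X.length = n + r) {v : List ℤ}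
    (h1 : v.length = X.length + r)
    (h3 : lv (X.length + r) v ∈ Zs (sq (X.length + r) (aug X)) X.length)
    (e2 : ∀ j < r, ∑ i ∈ range n, (v.take X.length).getD i 0 *
      ((Φ.getD i []).getD j 0 % (Δ : ℤ)) + (v.take X.length).getD (n + j) 0 * Δ = 0)
    (hform : ∀ (c : ℕ → ℤ), ∀ j < r, form X c j = C *
      (∑ i ∈ range n, c i * ((Φ.getD i []).getD j 0 % (Δ : ℤ)) + c (n + j) * Δ)) :
    (∀ p : Fin (X.length + r), n + r ≤ (p : ℕ) → lv (X.length + r) v p = 0) ∧
      ∀ j (hj : j < r), (Δ : ℝ) * lv (X.length + r) v ⟨n + j, by omega⟩ =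
        -∑ i : Fin n, lv (X.length + r) v ⟨i, by omega⟩ *
          (((Φ.getD i []).getD j 0 % (Δ : ℤ) : ℤ) : ℝ) := by
  obtain ⟨c, hc⟩ := exists_lat h3
  have h4 : ∀ i < X.length, (v.take X.length).getD i 0 = c i := by
    intro i hi
    have h5 := lat_lt (X := X) (q := r) c hi (by omega)
    rw [← hc, lv_apply] at h5
    have h6 : v.getD i 0 = c i := by simpa using h5
    rw [← h6, List.getD_eq_getElem _ _ (by simp [h1]; omega), List.getElem_take,
      List.getD_eq_getElem _ _ (by omega)]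
  have h5 : ∀ i (hi : i < X.length), lv (X.length + r) v ⟨i, by omega⟩ = c i := by
    intro i hi
    rw [hc]; exact lat_lt c hi _
  constructor
  · intro p hp
    obtain ⟨j, hj⟩ : ∃ j, (p : ℕ) = X.length + j := ⟨p - X.length, by omega⟩
    have hj' : j < r := by have := p.2; omega
    have h6 := lat_ge (X := X) (q := r) c (j := j) (by omega)
    have h7 : p = ⟨X.length + j, by omega⟩ := Fin.ext hj
    rw [h7, hc, h6]
    have h8 : form X c j = 0 := by
      rw [hform c j hj']
      have h9 := e2 j hj'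
      rw [h4 (n + j) (by omega)] at h9
      have h10 : ∑ i ∈ range n, (v.take X.length).getD i 0 * ((Φ.getD i []).getD j 0 % (Δ : ℤ)) =
          ∑ i ∈ range n, c i * ((Φ.getD i []).getD j 0 % (Δ : ℤ)) :=
        Finset.sum_congr rfl fun i hi => by rw [h4 i (by have := mem_range.1 hi; omega)]
      rw [h10] at h9
      rw [h9, mul_zero]
    rw [h8]; simp
  · intro j hj
    have h9 := e2 j hj
    rw [h4 (n + j) (by omega)] at h9
    have h10 : ∑ i ∈ range n, (v.take X.length).getD i 0 * ((Φ.getD i []).getD j 0 % (Δ : ℤ)) =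
        ∑ i : Fin n, c i * ((Φ.getD i []).getD j 0 % (Δ : ℤ)) := by
      rw [← Fin.sum_univ_eq_sum_range
        (fun i => (v.take X.length).getD i 0 * ((Φ.getD i []).getD j 0 % (Δ : ℤ)))]
      exact Finset.sum_congr rfl fun i _ => by rw [h4 i (by have := i.2; omega)]
    rw [h10] at h9
    rw [h5 (n + j) (by omega)]
    have h11 : (Δ : ℤ) * c (n + j) =
        -∑ i : Fin n, c i * ((Φ.getD i []).getD j 0 % (Δ : ℤ)) := by linarith
    have h12 := congrArg (fun t : ℤ => (t : ℝ)) h11
    push_cast at h12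
    rw [h12]
    congr 1
    refine Finset.sum_congr rfl fun i _ => ?_
    rw [h5 i (by have := i.2; omega)]

theorem length_lllShort_le {X : List (List ℤ)} {T B : ℕ} {C : ℤ} (hΔ : 0 < Δ)
    (hXl : X.length = n + r) (hlen : ∀ u ∈ X, u.length = r) (hT : ∀ u ∈ X, nrm u < 2 ^ T)
    (hk : X.length ≤ T)
    (e2 : ∀ v ∈ lllShort (aug X) T B, ∀ j < r, ∑ i ∈ range n, (v.take X.length).getD i 0 *
      ((Φ.getD i []).getD j 0 % (Δ : ℤ)) + (v.take X.length).getD (n + j) 0 * Δ = 0)
    (hform : ∀ (c : ℕ → ℤ), ∀ j < r, form X c j = C *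
      (∑ i ∈ range n, c i * ((Φ.getD i []).getD j 0 % (Δ : ℤ)) + c (n + j) * Δ)) :
    (lllShort (aug X) T B).length ≤ n := by
  have hinv := inv_aug hlen hT
  have hkT : (aug X).length ≤ T := by rw [length_aug]; exact hk
  have hli := li_lllShort hinv B
  have hspec := lllShort_spec hinv hkT B
  refine length_le_of_li (N := X.length + r) (lllShort (aug X) T B) (by rw [hXl])
    (fun i j => ((((Φ.getD i []).getD j 0 % (Δ : ℤ) : ℤ)) : ℝ))
    (D := (Δ : ℝ)) (by exact_mod_cast hΔ.ne') hli ?_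
  intro v hv
  obtain ⟨h1, _, h3⟩ := hspec.1 v hv
  exact coords_aux hXl h1 h3 (e2 v hv) hform

/-- `kerShort` has at most `n` elements -/
theorem kerShort_length (hΔ : 0 < Δ) : (kerShort n r Φ Δ β).length ≤ n := by
  rw [kerShort, List.length_map, relShort, List.length_map]
  refine length_lllShort_le hΔ length_kerX kerX_len kerX_nrm kerX_T ?_
    (fun c j hj => form_kerX (C := kerC n r β) c hj)
  intro v hv
  exact (rel_exact (List.mem_map.2 ⟨v, hv, rfl⟩)).2.1

end Spec

end Run7.h700
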